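import Pool.Agent.Helper38.SD.GoalsB

/-!
# Packet SD-M_HUL (MP_fc6b1e_nt)
-/

set_option autoImplicit false

namespace Pool.Agent.Helper46.SD

open Pool.Agent.Helper38.SD

section

variable {I : Type} (c : I → I) (r : Finset I → ℕ)

theorem convex_pol : Convex ℝ (Pol c r) := by
  intro x hx y hy a b ha hb hab
  refine ⟨fun i => ?_, fun i => ?_, fun A => ?_⟩
  · have h1 := mul_nonneg ha (hx.1 i)
    have h2 := mul_nonneg hb (hy.1 i)
    simpa using add_nonneg h1 h2
  · have h1 := hx.2.1 i
    have h2 := hy.2.1 i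
    simp only [Pi.add_apply, Pi.smul_apply, smul_eq_mul]
    linear_combination a * h1 + b * h2 + hab
  · have h1 := mul_le_mul_of_nonneg_left (hx.2.2 A) ha
    have h2 := mul_le_mul_of_nonneg_left (hy.2.2 A) hb
    simp only [Pi.add_apply, Pi.smul_apply, smul_eq_mul, Finset.sum_add_distrib,
      ← Finset.mul_sum]
    calc a * ∑ i ∈ A, x i + b * ∑ i ∈ A, y i ≤ a * r A + b * r A := add_le_add h1 h2
      _ = r A := by rw [← add_mul, hab, one_mul]

theorem closed_pol : IsClosed (Pol c r) := by
  have e : Pol c r = (⋂ i, {x : I → ℝ | 0 ≤ x i}) ∩ ((⋂ i, {x : I → ℝ | x i + x (c i) = 1}) ∩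
      ⋂ A : Finset I, {x : I → ℝ | ∑ i ∈ A, x i ≤ r A}) := by
    ext x
    simp only [Pol, Set.mem_setOf_eq, Set.mem_inter_iff, Set.mem_iInter]
  rw [e]
  refine IsClosed.inter (isClosed_iInter fun i => ?_) (IsClosed.inter
    (isClosed_iInter fun i => ?_) (isClosed_iInter fun A => ?_))
  · exact isClosed_le continuous_const (continuous_apply i)
  · exact isClosed_eq ((continuous_apply i).add (continuous_apply (c i))) continuous_const
  · exact isClosed_le (continuous_finsetSum _ fun i _ => continuous_apply i) continuous_const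

theorem compact_pol : IsCompact (Pol c r) := by
  refine IsCompact.of_isClosed_subset (isCompact_univ_pi (s := fun _ : I => Set.Icc (0 : ℝ) 1)
    fun _ => isCompact_Icc) (closed_pol c r) ?_
  intro x hx i _
  have h1 := hx.1 i
  have h2 := hx.1 (c i)
  have h3 := hx.2.1 i
  exact ⟨h1, by linarith⟩

end

theorem m_hul (h : M_EXT) : M_HUL := by
  intro I _ _ c r d h1 h2 h3 h4 h5
  have hfin : {x : I → ℝ | x ∈ Pol c r ∧ ∀ i, x i = 0 ∨ x i = 1}.Finite := by
    have hf : (Set.pi Set.univ fun _ : I => ({0, 1} : Set ℝ)).Finite :=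
      Set.Finite.pi fun _ => (Set.finite_singleton _).insert _
    refine hf.subset ?_
    intro x hx i _
    rcases hx.2 i with h0 | h0
    · rw [h0]; simp
    · rw [h0]; simp
  have hcl : IsClosed (convexHull ℝ {x : I → ℝ | x ∈ Pol c r ∧ ∀ i, x i = 0 ∨ x i = 1}) :=
    hfin.isClosed_convexHull ℝ
  have hKM := closure_convexHull_extremePoints (compact_pol c r) (convex_pol c r)
  intro x hx
  rw [← hKM] at hx
  refine (closure_minimal (convexHull_mono ?_) hcl) hx
  intro y hy
  exact ⟨extremePoints_subset hy, h I c r d h1 h2 h3 h4 h5 y hy⟩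

end Pool.Agent.Helper46.SD
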