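import Pool.Agent.Helper71.SD.Goals

namespace Pool.Agent.Helper71.SD.L1

open Pool.Agent.Helper71.AHtpy SimpleGraph

theorem tog_inj_left {e f : E} {S : Finset E} (h : tog e S = tog f S) : e = f := by
  by_contra hne
  have := Finset.ext_iff.mp h e
  rw [mem_tog, mem_tog] at this
  by_cases he : e ∈ S <;> simp [he, hne] at this

theorem filter_tog_of_ne {e : E} {b : Fin 3} (h : blk e ≠ b) (S : Finset E) :
    (tog e S).filter (fun i => blk i = b) = S.filter (fun i => blk i = b) := by
  ext i
  simp only [Finset.mem_filter, mem_tog]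
  constructor
  · rintro ⟨h1 | h1, h2⟩
    · exact ⟨h1.1, h2⟩
    · exact absurd (h1.1 ▸ h2) h
  · rintro ⟨h1, h2⟩
    refine ⟨Or.inl ⟨h1, ?_⟩, h2⟩
    rintro rfl
    exact h h2

theorem xc_lo {T : Finset E} {c : Fin 3 → Option (Finset E)} (h : xc T = .lo c) :
    (∀ a, cnt a T ≤ 5) ∧ cl T = c := by
  unfold xc at h
  split_ifs at h with h1 h2
  · exact ⟨h1, C0.lo.inj h⟩

theorem xc_hi {T : Finset E} {c : Fin 3 → Option (Finset E)} (h : xc T = .hi c) :
    (∀ a, cnt a Tᶜ ≤ 5) := by
  unfold xc at h
  split_ifs at h with h1 h2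
  exact h2

/-- three distinct directions to toggle -/
theorem exists_three (h1 : S_XC1) {S : Finset E} {a : Fin 3} (hS : S.card < 30)
    (ha : 5 ≤ cnt a S) : ∃ e₁ e₂ e₃ : E, e₁ ≠ e₂ ∧ e₁ ≠ e₃ ∧ e₂ ≠ e₃ ∧ e₁ ∉ S ∧ e₂ ∉ S ∧ e₃ ∉ S ∧
      (18 ≤ cnt a S ∨ (blk e₁ = a ∧ blk e₂ = a ∧ blk e₃ = a)) := by
  obtain ⟨-, -, -, -, h5, -⟩ := h1
  by_cases hc : cnt a S + 3 ≤ 20
  · obtain ⟨U, hU, hd, hb⟩ := h5 a S 3 hc
    obtain ⟨x, y, z, hxy, hxz, hyz, rfl⟩ := Finset.card_eq_three.mp hU
    rw [Finset.disjoint_left] at hd
    exact ⟨x, y, z, hxy, hxz, hyz, hd (by simp), hd (by simp), hd (by simp),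
      Or.inr ⟨hb _ (by simp), hb _ (by simp), hb _ (by simp)⟩⟩
  · have hcard : 3 ≤ (Sᶜ).card := by
      rw [Finset.card_compl, Fintype.card_fin]; omega
    obtain ⟨U, hUS, hU⟩ := Finset.exists_subset_card_eq hcard
    obtain ⟨x, y, z, hxy, hxz, hyz, rfl⟩ := Finset.card_eq_three.mp hU
    have hm : ∀ i ∈ ({x, y, z} : Finset E), i ∉ S := fun i hi => Finset.mem_compl.mp (hUS hi)
    exact ⟨x, y, z, hxy, hxz, hyz, hm _ (by simp), hm _ (by simp), hm _ (by simp),
      Or.inl (by omega)⟩

theorem compl_big (h1 : S_XC1) {S : Finset E} (hS : S.card ≤ 30) : ∃ a, 10 ≤ cnt a Sᶜ := by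
  obtain ⟨h1, h2, -⟩ := h1
  by_contra hc
  push Not at hc
  have e := h2 S
  have a0 := hc 0
  have a1 := hc 1
  have a2 := hc 2
  rw [(h1 0 S).2] at a0
  rw [(h1 1 S).2] at a1
  rw [(h1 2 S).2] at a2
  omega

theorem big (h1 : S_XC1) {S : Finset E} (hS : 30 ≤ S.card) : ∃ a, 10 ≤ cnt a S := by
  obtain ⟨h1, h2, -⟩ := h1
  by_contra hc
  push Not at hc
  have e := h2 S
  have a0 := hc 0
  have a1 := hc 1
  have a2 := hc 2
  omega

theorem l1 : S_XC1 → S_XC2 → S_L1 := by
  intro x1 x2 V G A n j σ hσ hj hjn hB
  have key : ∀ m : ℕ, ∀ S : Finset E, S.card ≤ 30 → 30 - S.card = m → (∃ a, 5 ≤ cnt a S) →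
      σ S = pt n (A.b (xc S)) j := by
    intro m
    induction m with
    | zero =>
      intro S hS hm _
      have h30 : S.card = 30 := by omega
      have hmid : xc S = .mid S := by
        rw [x2.2.1]
        obtain ⟨a, ha⟩ := big x1 h30.ge
        obtain ⟨b, hb⟩ := compl_big x1 hS
        exact ⟨rfl, ⟨a, by omega⟩, b, by omega⟩
      rw [hmid]
      exact hB S h30
    | succ m ih =>
      intro S hS hm ⟨a, ha⟩
      have hlt : S.card < 30 := by omega
      obtain ⟨e₁, e₂, e₃, h12, h13, h23, n1, n2, n3, hbl⟩ := exists_three x1 hlt ha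
      -- facts on the toggled sets
      have hW : ∀ e, e ∉ S → (18 ≤ cnt a S ∨ blk e = a) →
          (tog e S).card = S.card + 1 ∧ 6 ≤ cnt a (tog e S) ∧ xc (tog e S) = .mid (tog e S) ∧
          σ (tog e S) = pt n (A.b (.mid (tog e S))) j := by
        intro e he hb
        have hc : (tog e S).card = S.card + 1 := (x1.2.2.2.2.2.2.2 e S).2 he
        have h6 : 6 ≤ cnt a (tog e S) := by
          have h3 := x1.2.2.1 a e S
          by_cases hba : blk e = a
          · rw [h3.2.2 hba he]; omega
          · rw [h3.1 hba]
            rcases hb with hb | hb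
            · omega
            · exact absurd hb hba
        have hxc : xc (tog e S) = .mid (tog e S) := by
          rw [x2.2.1]
          obtain ⟨b, hb⟩ := compl_big x1 (S := tog e S) (by omega)
          exact ⟨rfl, ⟨a, h6⟩, b, by omega⟩
        refine ⟨hc, h6, hxc, ?_⟩
        have := ih (tog e S) (by omega) (by omega) ⟨a, by omega⟩
        rw [this, hxc]
      have hb1 : 18 ≤ cnt a S ∨ blk e₁ = a := hbl.imp id fun h => h.1
      have hb2 : 18 ≤ cnt a S ∨ blk e₂ = a := hbl.imp id fun h => h.2.1
      have hb3 : 18 ≤ cnt a S ∨ blk e₃ = a := hbl.imp id fun h => h.2.2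
      obtain ⟨v, l, hl, hv⟩ := exists_pt (σ S)
      -- nearness
      have hnear : ∀ e, e ∉ S → (18 ≤ cnt a S ∨ blk e = a) →
          (l ≤ j + 1 ∧ j ≤ l + 1) ∧ (v = A.b (.mid (tog e S)) ∨
            (l = j ∧ G.Adj v (A.b (.mid (tog e S))))) := by
        intro e he hb
        obtain ⟨-, -, -, hσW⟩ := hW e he hb
        have h := hσ S (tog e S) ⟨e, rfl⟩
        rw [hv, hσW, near_pt_iff hl (by omega)] at h
        obtain ⟨h1, h2⟩ := h
        refine ⟨h1, ?_⟩
        rcases h2 with h | h | h | h | h | h
        · omega
        · omega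
        · omega
        · omega
        · exact Or.inl h
        · exact Or.inr h
      have hmid_inj : ∀ e f : E, A.b (.mid (tog e S)) = A.b (.mid (tog f S)) → e = f := by
        intro e f h
        exact tog_inj_left (C0.mid.inj (A.b_inj h))
      have N1 := hnear e₁ n1 hb1
      have N2 := hnear e₂ n2 hb2
      have N3 := hnear e₃ n3 hb3
      have hlj : l = j := by
        rcases N1.2 with h | h
        · rcases N2.2 with h' | h'
          · exact absurd (hmid_inj _ _ (h.symm.trans h')) h12
          · exact h'.1
        · exact h.1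
      -- `v` is not one of the three labels
      have hne : ∀ e f, e ≠ f → e ∉ S → f ∉ S → (18 ≤ cnt a S ∨ blk e = a) →
          (18 ≤ cnt a S ∨ blk f = a) → v ≠ A.b (.mid (tog e S)) := by
        intro e f hef he hf hbe hbf hve
        obtain ⟨hcf, -, hxf, -⟩ := hW f hf hbf
        obtain ⟨hce, -, -, -⟩ := hW e he hbe
        rcases (hnear f hf hbf).2 with h | h
        · exact hef (hmid_inj _ _ (hve.symm.trans h))
        · rcases A.nbr (tog f S) hxf v h.2.symm with ⟨T, hT, hvT⟩ | h'
          · rw [hve] at hvT
            have hxT := A.b_inj hvT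
            have hTe := ((x2.2.1 T (tog e S)).mp hxT.symm).1
            subst hTe
            obtain ⟨c, hc⟩ := hT
            have h8 := x1.2.2.2.2.2.2.2 c (tog f S)
            rw [← hc] at h8
            by_cases hcm : c ∈ tog f S
            · have := h8.1 hcm; omega
            · have := h8.2 hcm; omega
          · rw [hve, A.ft_b] at h'
            exact absurd h' (by simp)
      have hT : ∀ e f, e ≠ f → e ∉ S → f ∉ S → (18 ≤ cnt a S ∨ blk e = a) →
          (18 ≤ cnt a S ∨ blk f = a) → ∃ c, v = A.b (xc (tog c (tog e S))) := by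
        intro e f hef he hf hbe hbf
        obtain ⟨-, -, hxe, -⟩ := hW e he hbe
        obtain ⟨-, -, hxf, -⟩ := hW f hf hbf
        have ae : G.Adj (A.b (.mid (tog e S))) v := by
          rcases (hnear e he hbe).2 with h | h
          · exact absurd h (hne e f hef he hf hbe hbf)
          · exact h.2.symm
        have af : G.Adj (A.b (.mid (tog f S))) v := by
          rcases (hnear f hf hbf).2 with h | h
          · exact absurd h (hne f e hef.symm hf he hbf hbe)
          · exact h.2.symm
        rcases A.nbr (tog e S) hxe v ae with ⟨T, ⟨c, rfl⟩, hvT⟩ | h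
        · exact ⟨c, hvT⟩
        · exfalso
          rcases A.nbr (tog f S) hxf v af with ⟨T, -, hvT⟩ | h'
          · rw [hvT, A.ft_b] at h
            exact absurd h (by simp)
          · rw [h] at h'
            exact hef (tog_inj_left (Option.some.inj h'))
      obtain ⟨c₁, hc1⟩ := hT e₁ e₂ h12 n1 n2 hb1 hb2
      obtain ⟨c₂, hc2⟩ := hT e₂ e₁ h12.symm n2 n1 hb2 hb1
      obtain ⟨c₃, hc3⟩ := hT e₃ e₁ h13.symm n3 n1 hb3 hb1
      have x12 := A.b_inj (hc1.symm.trans hc2)
      have x13 := A.b_inj (hc1.symm.trans hc3)
      suffices hfin : xc (tog c₁ (tog e₁ S)) = xc S by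
        rw [hv, hlj, hc1, hfin]
      obtain ⟨W1c, W16, W1x, -⟩ := hW e₁ n1 hb1
      rcases hy : xc (tog c₁ (tog e₁ S)) with T | c | c
      · -- the middle case
        have t1 := ((x2.2.1 _ _).mp hy).1
        have t2 := ((x2.2.1 _ _).mp (x12.symm.trans hy)).1
        have t3 := ((x2.2.1 _ _).mp (x13.symm.trans hy)).1
        by_cases hce : c₁ = e₁
        · rw [← hy, hce, tog_tog]
        · exfalso
          -- `e₁ ∈ T`
          have m1 : e₁ ∈ T := by
            rw [← t1, mem_tog]
            left
            exact ⟨by rw [mem_tog]; right; exact ⟨rfl, n1⟩, fun h => hce h.symm⟩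
          have hc2e : c₂ ≠ e₂ := by
            rintro rfl
            rw [tog_tog] at t2
            rw [← t2] at m1
            exact n1 m1
          have hc3e : c₃ ≠ e₃ := by
            rintro rfl
            rw [tog_tog] at t3
            rw [← t3] at m1
            exact n1 m1
          have m2 : e₂ ∈ T := by
            rw [← t2, mem_tog]
            left
            exact ⟨by rw [mem_tog]; right; exact ⟨rfl, n2⟩, fun h => hc2e h.symm⟩
          have m3 : e₃ ∈ T := by
            rw [← t3, mem_tog]
            left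
            exact ⟨by rw [mem_tog]; right; exact ⟨rfl, n3⟩, fun h => hc3e h.symm⟩
          rw [← t1, mem_tog, mem_tog] at m2 m3
          have k2 : e₂ = c₁ := by
            rcases m2 with ⟨h | h, -⟩ | h
            · exact absurd h.1 n2
            · exact absurd h.1 h12.symm
            · exact h.1
          have k3 : e₃ = c₁ := by
            rcases m3 with ⟨h | h, -⟩ | h
            · exact absurd h.1 n3
            · exact absurd h.1 h13.symm
            · exact h.1
          exact h23 (k2.trans k3.symm)
      · -- low case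
        obtain ⟨hle, hcl⟩ := xc_lo hy
        have h3 := x1.2.2.1 a c₁ (tog e₁ S)
        have hca : blk c₁ = a := by
          by_contra hca
          have := hle a
          rw [h3.1 hca] at this
          omega
        have hcm : c₁ ∈ tog e₁ S := by
          by_contra hcm
          have := hle a
          rw [h3.2.2 hca hcm] at this
          omega
        have h6 : cnt a (tog e₁ S) = 6 := by
          have := h3.2.1 hca hcm
          have := hle a
          omega
        have h3' := x1.2.2.1 a e₁ S
        have he1a : blk e₁ = a := by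
          rcases hb1 with h | h
          · by_contra hba
            rw [h3'.1 hba] at h6
            omega
          · exact h
        have h5 : cnt a S = 5 := by
          have := h3'.2.2 he1a n1
          omega
        have hflt : ∀ b, b ≠ a → (tog c₁ (tog e₁ S)).filter (fun i => blk i = b) =
            S.filter (fun i => blk i = b) := by
          intro b hb
          rw [filter_tog_of_ne (by rw [hca]; exact hb.symm),
            filter_tog_of_ne (by rw [he1a]; exact hb.symm)]
        have hcnt : ∀ b, b ≠ a → cnt b (tog c₁ (tog e₁ S)) = cnt b S := by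
          intro b hb
          unfold cnt
          rw [hflt b hb]
        have hall : ∀ b, cnt b S ≤ 5 := by
          intro b
          by_cases hb : b = a
          · rw [hb, h5]
          · rw [← hcnt b hb]; exact hle b
        have hclS : cl S = c := by
          rw [← hcl]
          funext b
          unfold cl
          by_cases hb : b = a
          · subst hb
            have : cnt b (tog c₁ (tog e₁ S)) = 5 := by
              have := h3.2.1 hca hcm
              omega
            rw [if_pos (by omega), if_pos (by omega)]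
          · rw [hcnt b hb, hflt b hb]
        unfold xc
        rw [if_pos hall, hclS]
      · -- high case
        exfalso
        have hle := xc_hi hy
        have hcard : (tog c₁ (tog e₁ S)).card ≤ (tog e₁ S).card + 1 := by
          have h8 := x1.2.2.2.2.2.2.2 c₁ (tog e₁ S)
          by_cases hcm : c₁ ∈ tog e₁ S
          · have := h8.1 hcm; omega
          · have := h8.2 hcm; omega
        have hs := x1.2.1 (tog c₁ (tog e₁ S))
        have q0 := hle 0
        have q1 := hle 1
        have q2 := hle 2
        rw [(x1.1 _ _).2] at q0 q1 q2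
        omega
  intro S hS ha
  exact key _ S hS rfl ha

end Pool.Agent.Helper71.SD.L1
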